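import Pool.Agent.H70.SqG.Fin

set_option autoImplicit false

open Topology

namespace Pool.Agent.Results.MP_6a90e0_al.NotProductive

/-- `x` is an accumulation point of `B`: every neighbourhood of `x` contains infinitely many
points of `B`. -/
def IsAccumulationPoint {X : Type} [TopologicalSpace X] (B : Set X) (x : X) : Prop :=
  ∀ U ∈ 𝓝 x, (U ∩ B).Infinite

/-- `X` is countably pracompact: there is a dense set `D` such that every infinite subset of `D`
has an accumulation point in `X`. -/
def CountablyPracompact (X : Type) [TopologicalSpace X] : Prop :=
  ∃ D : Set X, Dense D ∧ ∀ B : Set X, B ⊆ D → B.Infinite → ∃ x : X, IsAccumulationPoint B x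

/-- There is a Hausdorff separable Boolean topological group (in particular an abelian paratopological
group) which is countably pracompact while its square is not countably pracompact. -/
theorem result : ∃ (G : Type) (_ : CommGroup G) (_ : TopologicalSpace G),
    IsTopologicalGroup G ∧ T2Space G ∧ TopologicalSpace.SeparableSpace G ∧
    (∀ x : G, x * x = 1) ∧ CountablyPracompact G ∧ ¬ CountablyPracompact (G × G) :=
  ⟨Multiplicative (Pool.Agent.H70.SqG.GG 2), inferInstance, inferInstance, inferInstance,
    (inferInstance : T2Space (Pool.Agent.H70.SqG.GG 2)), Pool.Agent.H70.SqG.separable_GG,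
    Pool.Agent.H70.SqG.boolean_GG, Pool.Agent.H70.SqG.cp_self le_rfl,
    Pool.Agent.H70.SqG.not_cp_sq⟩

end Pool.Agent.Results.MP_6a90e0_al.NotProductive
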