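import Pool.Agent.H70.SqG.Fin

set_option autoImplicit false

open Topology

universe u

namespace Pool.Agent.Results.MP_6a90e0_al.NotProductiveFamily

/-- `x` is an accumulation point of `B`: every neighbourhood of `x` contains infinitely many
points of `B`. -/
def IsAccumulationPoint {X : Type u} [TopologicalSpace X] (B : Set X) (x : X) : Prop :=
  ∀ U ∈ 𝓝 x, (U ∩ B).Infinite

/-- `X` is countably pracompact: there is a dense set `D` such that every infinite subset of `D`
has an accumulation point in `X`. -/
def CountablyPracompact (X : Type u) [TopologicalSpace X] : Prop :=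
  ∃ D : Set X, Dense D ∧ ∀ B : Set X, B ⊆ D → B.Infinite → ∃ x : X, IsAccumulationPoint B x

/-- For every `β ∈ {2, 3, 4, …, ∞}` there is a Hausdorff separable Boolean topological group `G` which
is countably pracompact and such that, for every index set `I`, the power `G ^ I` is countably
pracompact if and only if `I` has less than `β` elements. (`β = 2`: no power with at least two factors
is countably pracompact; `β = ∞`: exactly the finite powers are countably pracompact.) -/
theorem result (β : ℕ∞) (hβ : 2 ≤ β) : ∃ (G : Type) (_ : CommGroup G) (_ : TopologicalSpace G),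
    IsTopologicalGroup G ∧ T2Space G ∧ TopologicalSpace.SeparableSpace G ∧
    (∀ x : G, x * x = 1) ∧ CountablyPracompact G ∧
    ∀ I : Type u, CountablyPracompact (I → G) ↔ ENat.card I < β := by
  have h1 : 1 ≤ β := le_trans one_le_two hβ
  exact ⟨Multiplicative (Pool.Agent.H70.SqG.GG β), inferInstance, inferInstance, inferInstance,
    (inferInstance : T2Space (Pool.Agent.H70.SqG.GG β)), Pool.Agent.H70.SqG.separable_GG,
    Pool.Agent.H70.SqG.boolean_GG, Pool.Agent.H70.SqG.cp_self hβ,
    fun I => Pool.Agent.H70.SqG.cp_iff h1 I⟩

end Pool.Agent.Results.MP_6a90e0_al.NotProductiveFamily
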